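import Mathlib

namespace Pool.Agent.H.MP_53cd62_co

open Finset Filter Topology ArithmeticFunction ArithmeticFunction.vonMangoldt

/-- the reciprocals of the primes in an invertible residue class are not summable -/
theorem not_summable {q : ℕ} [NeZero q] {a : ZMod q} (ha : IsUnit a) :
    ¬ Summable fun n : ℕ => if n.Prime ∧ (n : ZMod q) = a then (1 / n : ℝ) else 0 := by
  intro H
  obtain ⟨C, hC⟩ := LSeries_residueClass_lower_bound ha
  let x : ℕ → ℝ := fun k => 1 / ((k : ℝ) + 1)
  have x0 : ∀ k, 0 < x k := fun k => by positivity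
  have x1 : ∀ k, x k ≤ 1 := fun k => by
    simp only [x]; rw [div_le_one (by positivity)]; linarith [Nat.cast_nonneg (α := ℝ) k]
  have xt : Tendsto x atTop (𝓝 0) := tendsto_one_div_add_atTop_nhds_zero_nat
  have S := H.add (summable_residueClass_non_primes_div a)
  have T : Tendsto (fun k => ∑' n : ℕ, x k * (residueClass a n / (n : ℝ) ^ (1 + x k))) atTop
      (𝓝 (∑' _ : ℕ, (0 : ℝ))) := by
    refine tendsto_tsum_of_dominated_convergence S (fun n => ?_) (Eventually.of_forall fun k n => ?_)
    · rcases n.eq_zero_or_pos with rfl | hn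
      · simp
      have n0 : (0 : ℝ) < n := by exact_mod_cast hn
      have c : Continuous fun t : ℝ => t * (residueClass a n / (n : ℝ) ^ (1 + t)) := by
        refine continuous_id.mul (continuous_const.div ?_ fun t => (Real.rpow_pos_of_pos n0 _).ne')
        exact (Real.continuous_const_rpow n0.ne').comp (by fun_prop)
      simpa [Function.comp_def] using (c.tendsto 0).comp xt
    · rcases n.eq_zero_or_pos with rfl | hn
      · simp
      have n1 : (1 : ℝ) ≤ n := by exact_mod_cast hn
      have r0 := residueClass_nonneg a n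
      have xk := x0 k
      rw [Real.norm_of_nonneg (by positivity), Real.rpow_add (by linarith), Real.rpow_one]
      have p1 : 1 ≤ (n : ℝ) ^ x k := Real.one_le_rpow n1 xk.le
      by_cases hp : n.Prime
      · rw [if_pos hp, zero_div, add_zero]
        by_cases h : (n : ZMod q) = a
        · rw [if_pos ⟨hp, h⟩]
          have r1 : residueClass a n ≤ Real.log n := (residueClass_le a n).trans vonMangoldt_le_log
          have r2 : x k * Real.log n ≤ (n : ℝ) ^ x k := by
            rw [← Real.log_rpow (by linarith)]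
            exact Real.log_le_self (by linarith)
          rw [← mul_div_assoc, div_le_div_iff₀ (by positivity) (by positivity)]
          have : x k * residueClass a n ≤ (n : ℝ) ^ x k := (mul_le_mul_of_nonneg_left r1 xk.le).trans r2
          nlinarith
        · have : residueClass a n = 0 := by simp [residueClass, h]
          rw [if_neg fun h' => h h'.2, this]
          simp
      · rw [if_neg fun h => hp h.1, if_neg hp, zero_add]
        refine (mul_le_of_le_one_left (by positivity) (x1 k)).trans ?_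
        exact div_le_div_of_nonneg_left r0 (by linarith) (le_mul_of_one_le_right (by linarith) p1)
  have U : Tendsto (fun k => (q.totient : ℝ)⁻¹ - x k * C) atTop (𝓝 ((q.totient : ℝ)⁻¹ - 0 * C)) :=
    tendsto_const_nhds.sub (xt.mul_const C)
  have := le_of_tendsto_of_tendsto' U T fun k => by
    have := hC (x := 1 + x k) ⟨by linarith [x0 k], by linarith [x1 k]⟩
    rw [tsum_mul_left]
    have h := mul_le_mul_of_nonneg_left this (x0 k).le
    rwa [add_sub_cancel_left, mul_sub, mul_div_cancel₀ _ (x0 k).ne'] at h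
  have hq : 0 < (q.totient : ℝ)⁻¹ := inv_pos.mpr (mod_cast q.totient.pos_of_neZero)
  simp only [zero_mul, sub_zero, tsum_zero] at this
  linarith

/-- no prime of `P` divides `n` exactly once -/
def Good (P : Finset ℕ) (n : ℕ) : Prop := ∀ l ∈ P, l ∣ n → l ^ 2 ∣ n

instance (P : Finset ℕ) : DecidablePred (Good P) := fun n => by unfold Good; infer_instance

theorem Good.mod {P : Finset ℕ} {n m : ℕ} (h : Good P n) (hm : ∀ l ∈ P, l ^ 2 ∣ m) : Good P (n % m) :=
  fun l hl d => (Nat.dvd_mod_iff (hm l hl)).2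
    (h l hl ((Nat.dvd_mod_iff ((dvd_pow_self l two_ne_zero).trans (hm l hl))).1 d))

theorem one_prime {l : ℕ} (hl : 0 < l) : ((range (l ^ 2)).filter (Good {l})).card + l ≤ l ^ 2 + 1 := by
  have a := card_filter_add_card_filter_not (s := range (l ^ 2)) (Good {l})
  have b : ((range l).erase 0).card ≤ ((range (l ^ 2)).filter fun n => ¬ Good {l} n).card := by
    refine card_le_card_of_injOn (fun k => l * k) (fun k hk => ?_) fun a _ b _ e => ?_
    · obtain ⟨k0, k1⟩ := mem_erase.1 (mem_coe.1 hk)
      rw [mem_range] at k1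
      refine mem_coe.2 (mem_filter.2 ⟨mem_range.2 (by rw [pow_two]; exact Nat.mul_lt_mul_of_pos_left k1 hl),
        fun h => ?_⟩)
      have := h l (mem_singleton_self l) (dvd_mul_right _ _)
      rw [pow_two, Nat.mul_dvd_mul_iff_left hl] at this
      exact absurd (Nat.le_of_dvd (by omega) this) (by omega)
    · exact Nat.eq_of_mul_eq_mul_left hl e
  rw [card_erase_of_mem (mem_range.2 hl), card_range] at b
  rw [card_range] at a
  omega

theorem crt (P : Finset ℕ) (hP : ∀ l ∈ P, l.Prime) :
    (((range (∏ l ∈ P, l ^ 2)).filter (Good P)).card : ℝ) ≤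
      (∏ l ∈ P, l ^ 2 : ℕ) * Real.exp (-(∑ l ∈ P, (1 / l : ℝ)) / 2) := by
  induction P using Finset.induction_on with
  | empty => simp [Good]
  | insert l P hl ih =>
    have lp := hP l (mem_insert_self _ _)
    have ih := ih fun x hx => hP x (mem_insert_of_mem hx)
    have co : Nat.Coprime (l ^ 2) (∏ l ∈ P, l ^ 2) := Nat.Coprime.prod_right fun x hx =>
      Nat.Coprime.pow 2 2 ((Nat.coprime_primes lp (hP x (mem_insert_of_mem hx))).2 fun e => hl (e ▸ hx))
    have M0 : 0 < ∏ l ∈ P, l ^ 2 := prod_pos fun x hx => pow_pos (hP x (mem_insert_of_mem hx)).pos 2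
    rw [prod_insert hl, sum_insert hl]
    have a : ((range (l ^ 2 * ∏ l ∈ P, l ^ 2)).filter (Good (insert l P))).card ≤
        (((range (l ^ 2)).filter (Good {l})) ×ˢ ((range (∏ l ∈ P, l ^ 2)).filter (Good P))).card := by
      refine card_le_card_of_injOn (fun n => (n % l ^ 2, n % ∏ l ∈ P, l ^ 2)) (fun n hn => ?_)
        fun a ha b hb e => ?_
      · have g := (mem_filter.1 (mem_coe.1 hn)).2
        refine mem_coe.2 (mem_product.2 ⟨mem_filter.2 ⟨mem_range.2 (Nat.mod_lt _ (pow_pos lp.pos 2)), ?_⟩,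
          mem_filter.2 ⟨mem_range.2 (Nat.mod_lt _ M0), ?_⟩⟩)
        · refine Good.mod (fun x hx => g x ?_) fun x hx => by rw [mem_singleton.1 hx]
          rw [mem_singleton.1 hx]; exact mem_insert_self _ _
        · exact Good.mod (fun x hx => g x (mem_insert_of_mem hx)) fun x hx => dvd_prod_of_mem _ hx
      · rw [Prod.mk.injEq] at e
        exact Nat.ModEq.eq_of_lt_of_lt ((Nat.modEq_and_modEq_iff_modEq_mul co).1 e)
          (mem_range.1 (mem_filter.1 (mem_coe.1 ha)).1) (mem_range.1 (mem_filter.1 (mem_coe.1 hb)).1)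
    rw [card_product] at a
    have b : (((range (l ^ 2)).filter (Good {l})).card : ℝ) ≤ (l ^ 2 : ℕ) * Real.exp (-(1 / l) / 2) := by
      have h1 : (((range (l ^ 2)).filter (Good {l})).card : ℝ) + l ≤ l ^ 2 + 1 := by
        exact_mod_cast one_prime lp.pos
      have h2 : (2 : ℝ) ≤ l := by exact_mod_cast lp.two_le
      have h3 := Real.add_one_le_exp (-(1 / (l : ℝ)) / 2)
      have h4 : (l : ℝ) ^ 2 * (-(1 / l) / 2 + 1) = l ^ 2 - l / 2 := by field_simp; ring
      push_cast
      nlinarith [mul_le_mul_of_nonneg_left h3 (sq_nonneg (l : ℝ))]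
    calc _ ≤ (((range (l ^ 2)).filter (Good {l})).card : ℝ) *
          (((range (∏ l ∈ P, l ^ 2)).filter (Good P)).card : ℝ) := by exact_mod_cast a
      _ ≤ _ := mul_le_mul b ih (by positivity) (by positivity)
      _ = _ := by
        rw [neg_add, add_div, Real.exp_add]; push_cast; ring

theorem good_sq {P : Finset ℕ} (hP : ∀ l ∈ P, l.Prime ∧ l % 4 = 3) (a b : ℕ) : Good P (a ^ 2 + b ^ 2) := by
  intro l hl d
  have := Fact.mk (hP l hl).1
  have e : (a : ZMod l) ^ 2 = -(b : ZMod l) ^ 2 := by
    have := (ZMod.natCast_eq_zero_iff _ _).2 d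
    push_cast at this
    linear_combination this
  have hb : (b : ZMod l) = 0 := by
    by_contra h
    exact ZMod.mod_four_ne_three_of_sq_eq_neg_sq' h e (hP l hl).2
  have ha : (a : ZMod l) = 0 := by simpa [hb] using e
  rw [ZMod.natCast_eq_zero_iff] at ha hb
  exact dvd_add (pow_dvd_pow_of_dvd ha 2) (pow_dvd_pow_of_dvd hb 2)

/-- sums of two squares have density zero -/
theorem density {δ : ℝ} (hδ : 0 < δ) : ∃ M : ℝ, ∀ N : ℕ,
    ((((range N) ×ˢ (range N)).image fun p => p.1 ^ 2 + p.2 ^ 2).card : ℝ) ≤ δ * N ^ 2 + M := by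
  have h := not_summable (q := 4) (a := 3) (by decide)
  rw [not_summable_iff_tendsto_nat_atTop_of_nonneg fun n => by positivity] at h
  obtain ⟨K, hK⟩ := (h.eventually_ge_atTop (-2 * Real.log (δ / 2))).exists
  rw [← sum_filter] at hK
  set P := (range K).filter fun n : ℕ => n.Prime ∧ (n : ZMod 4) = 3
  have hP : ∀ l ∈ P, l.Prime ∧ l % 4 = 3 := fun l hl =>
    ⟨(mem_filter.1 hl).2.1, (ZMod.natCast_eq_natCast_iff' l 3 4).1 (mem_filter.1 hl).2.2⟩
  have c := crt P fun l hl => (hP l hl).1
  have M0 : 0 < ∏ l ∈ P, l ^ 2 := prod_pos fun x hx => pow_pos (hP x hx).1.pos 2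
  have hd : ∀ l ∈ P, l ^ 2 ∣ ∏ l ∈ P, l ^ 2 := fun x hx => dvd_prod_of_mem _ hx
  generalize ∏ l ∈ P, l ^ 2 = M at c M0 hd
  have e : Real.exp (-(∑ l ∈ P, (1 / l : ℝ)) / 2) ≤ δ / 2 := by
    rw [← Real.le_log_iff_exp_le (by positivity)]; linarith
  refine ⟨M * (δ / 2), fun N => ?_⟩
  have a : (((range N) ×ˢ (range N)).image fun p => p.1 ^ 2 + p.2 ^ 2).card ≤
      ((range (2 * N ^ 2 / M + 1)) ×ˢ ((range M).filter (Good P))).card := by
    refine card_le_card_of_injOn (fun n => (n / M, n % M)) (fun n hn => ?_) fun a _ b _ e => ?_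
    · obtain ⟨⟨a, b⟩, h, rfl⟩ := mem_image.1 (mem_coe.1 hn)
      simp only [mem_product, mem_range] at h
      refine mem_coe.2 (mem_product.2 ⟨mem_range.2 (Nat.lt_succ_of_le (Nat.div_le_div_right ?_)),
        mem_filter.2 ⟨mem_range.2 (Nat.mod_lt _ M0), (good_sq hP a b).mod hd⟩⟩)
      have := Nat.pow_le_pow_left h.1.le 2
      have := Nat.pow_le_pow_left h.2.le 2
      dsimp only; omega
    · rw [Prod.mk.injEq] at e
      rw [← Nat.div_add_mod a M, e.1, e.2, Nat.div_add_mod]
  rw [card_product, card_range] at a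
  have M1 : (0 : ℝ) < M := by exact_mod_cast M0
  have b : ((2 * N ^ 2 / M + 1 : ℕ) : ℝ) ≤ 2 * N ^ 2 / M + 1 := by
    push_cast
    have := Nat.cast_div_le (α := ℝ) (m := 2 * N ^ 2) (n := M)
    push_cast at this
    linarith
  calc _ ≤ ((2 * N ^ 2 / M + 1 : ℕ) : ℝ) * (((range M).filter (Good P)).card : ℝ) := by exact_mod_cast a
    _ ≤ (2 * N ^ 2 / M + 1) * (M * (δ / 2)) :=
      mul_le_mul b (c.trans (mul_le_mul_of_nonneg_left e M1.le)) (by positivity) (by positivity)
    _ = _ := by field_simp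

end Pool.Agent.H.MP_53cd62_co
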